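import Mathlib

/-!
# Graphical group schemes: commuting pairs, and parallel vectors over `ℤ / p ^ k`
-/

set_option autoImplicit false

namespace Pool.Agent.R710.Cc

/-- The edges `{u, v}` of a graph, `u < v`. -/
abbrev Edge {V : Type*} [LinearOrder V] (Γ : SimpleGraph V) : Type _ :=
  {e : V × V // e.1 < e.2 ∧ Γ.Adj e.1 e.2}

/-- The points `R^V × R^E` of the graphical group scheme of the graph `Γ`. -/
@[ext]
structure GG {V : Type*} [LinearOrder V] (Γ : SimpleGraph V) (R : Type*) where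
  x : V → R
  z : Edge Γ → R

section group

variable {V : Type*} [LinearOrder V] {Γ : SimpleGraph V} {R : Type*} [CommRing R]

/-- The multiplication `(x, z) (x', z') = (x + x', z + z' + β(x, x'))`, where
`β(x, x')_e = x_u x'_v` for the edge `e = {u, v}`, `u < v`. -/
instance : Mul (GG Γ R) where
  mul a b := ⟨fun v => a.x v + b.x v, fun e => a.z e + b.z e + a.x e.1.1 * b.x e.1.2⟩

instance : One (GG Γ R) where
  one := ⟨fun _ => 0, fun _ => 0⟩

instance : Inv (GG Γ R) where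
  inv a := ⟨fun v => - a.x v, fun e => - a.z e + a.x e.1.1 * a.x e.1.2⟩

@[simp] theorem mul_x (a b : GG Γ R) (v : V) : (a * b).x v = a.x v + b.x v := rfl

@[simp] theorem mul_z (a b : GG Γ R) (e : Edge Γ) :
    (a * b).z e = a.z e + b.z e + a.x e.1.1 * b.x e.1.2 := rfl

@[simp] theorem one_x (v : V) : (1 : GG Γ R).x v = 0 := rfl

@[simp] theorem one_z (e : Edge Γ) : (1 : GG Γ R).z e = 0 := rfl

@[simp] theorem inv_x (a : GG Γ R) (v : V) : (a⁻¹).x v = - a.x v := rfl

@[simp] theorem inv_z (a : GG Γ R) (e : Edge Γ) :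
    (a⁻¹).z e = - a.z e + a.x e.1.1 * a.x e.1.2 := rfl

instance : Group (GG Γ R) where
  mul_assoc a b c := by
    ext v
    · simp only [mul_x]; ring
    · simp only [mul_z, mul_x]; ring
  one_mul a := by
    ext v
    · simp
    · simp
  mul_one a := by
    ext v
    · simp
    · simp
  inv_mul_cancel a := by
    ext v
    · simp
    · simp only [mul_z, inv_z, inv_x, one_z]; ring

theorem commute_iff (a b : GG Γ R) :
    Commute a b ↔ ∀ e : Edge Γ, a.x e.1.1 * b.x e.1.2 = b.x e.1.1 * a.x e.1.2 := by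
  constructor
  · intro h e
    have := congrArg (fun c : GG Γ R => c.z e) h.eq
    simp only [mul_z] at this
    linear_combination this
  · intro h
    show a * b = b * a
    ext v
    · simp only [mul_x]; ring
    · simp only [mul_z]; linear_combination h v

/-- Pairs of commuting elements, up to the coordinates in `R^E`. -/
abbrev Par (Γ : SimpleGraph V) (R : Type*) [CommRing R] : Type _ :=
  {q : (V → R) × (V → R) // ∀ e : Edge Γ, q.1 e.1.1 * q.2 e.1.2 = q.2 e.1.1 * q.1 e.1.2}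

def equivGG : GG Γ R ≃ (V → R) × (Edge Γ → R) where
  toFun a := (a.x, a.z)
  invFun a := ⟨a.1, a.2⟩
  left_inv _ := rfl
  right_inv _ := rfl

def equivComm : {p : GG Γ R × GG Γ R // Commute p.1 p.2} ≃
    Par Γ R × ((Edge Γ → R) × (Edge Γ → R)) where
  toFun p := (⟨(p.1.1.x, p.1.2.x), (commute_iff _ _).1 p.2⟩, (p.1.1.z, p.1.2.z))
  invFun q := ⟨(⟨q.1.1.1, q.2.1⟩, ⟨q.1.1.2, q.2.2⟩), (commute_iff _ _).2 q.1.2⟩
  left_inv _ := rfl
  right_inv _ := rfl

variable [Finite V] [Finite R]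

instance : Finite (GG Γ R) := Finite.of_equiv _ equivGG.symm

theorem card_conj_mul (h : Nat.card (Edge Γ) = Nat.card V + 2) :
    Nat.card (ConjClasses (GG Γ R)) = Nat.card R ^ 2 * Nat.card (Par Γ R) := by
  have h1 := card_comm_eq_card_conjClasses_mul_card (GG Γ R)
  rw [Nat.card_congr equivComm, Nat.card_congr (equivGG (Γ := Γ) (R := R)), Nat.card_prod,
    Nat.card_prod, Nat.card_prod, Nat.card_fun, Nat.card_fun, h] at h1
  have hR : 0 < Nat.card R := Nat.card_pos
  have h2 : (Nat.card R ^ Nat.card V * Nat.card R ^ (Nat.card V + 2)) *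
      Nat.card (ConjClasses (GG Γ R)) =
      (Nat.card R ^ Nat.card V * Nat.card R ^ (Nat.card V + 2)) *
      (Nat.card R ^ 2 * Nat.card (Par Γ R)) := by
    rw [mul_comm, ← h1]
    ring
  exact Nat.eq_of_mul_eq_mul_left (by positivity) h2

end group

section local_counting

open Finset

variable (p k : ℕ) [hp : Fact p.Prime]

/-- The determinant of two vectors. -/
def D {R : Type*} [CommRing R] (w u : R × R) : R := w.1 * u.2 - w.2 * u.1

open scoped Classical in
/-- The multiples of `p ^ i` in `ℤ / p ^ k`. -/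
noncomputable def M (i : ℕ) : Finset (ZMod (p ^ k)) := univ.filter fun x => ∃ y, x = (p : ZMod (p ^ k)) ^ i * y

open scoped Classical in
/-- The elements of `ℤ / p ^ k` that are killed by `p ^ j`. -/
noncomputable def Ann (j : ℕ) : Finset (ZMod (p ^ k)) := univ.filter fun x => (p : ZMod (p ^ k)) ^ j * x = 0

variable {p k}

theorem mem_M {i : ℕ} {x : ZMod (p ^ k)} : x ∈ M p k i ↔ ∃ y, x = (p : ZMod (p ^ k)) ^ i * y := by
  simp [M]

theorem mem_Ann {i : ℕ} {x : ZMod (p ^ k)} : x ∈ Ann p k i ↔ (p : ZMod (p ^ k)) ^ i * x = 0 := by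
  simp [Ann]

theorem mem_M_iff {i : ℕ} (hi : i ≤ k) {x : ZMod (p ^ k)} : x ∈ M p k i ↔ p ^ i ∣ x.val := by
  rw [mem_M]
  constructor
  · rintro ⟨y, rfl⟩
    have h1 : ((p : ZMod (p ^ k)) ^ i * y) = ((p ^ i * y.val : ℕ) : ZMod (p ^ k)) := by
      push_cast
      rw [ZMod.natCast_zmod_val]
    rw [h1, ZMod.val_natCast]
    exact (Nat.dvd_mod_iff (pow_dvd_pow p hi)).2 (Dvd.intro _ rfl)
  · rintro ⟨c, hc⟩
    refine ⟨c, ?_⟩
    rw [← ZMod.natCast_zmod_val x, hc]
    push_cast
    rfl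

theorem card_M {i : ℕ} (hi : i ≤ k) : (M p k i).card = p ^ (k - i) := by
  have hpos : 0 < p ^ i := pow_pos hp.out.pos i
  have hk : p ^ i * p ^ (k - i) = p ^ k := by rw [← pow_add, Nat.add_sub_cancel' hi]
  have h1 : M p k i = (range (p ^ (k - i))).image fun t => ((p ^ i * t : ℕ) : ZMod (p ^ k)) := by
    ext x
    rw [mem_M_iff hi, mem_image]
    constructor
    · rintro ⟨c, hc⟩
      refine ⟨c, ?_, ?_⟩
      · rw [mem_range]
        have := ZMod.val_lt x
        rw [hc, ← hk] at this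
        exact lt_of_mul_lt_mul_left this hpos.le
      · rw [← hc, ZMod.natCast_zmod_val]
    · rintro ⟨t, -, rfl⟩
      rw [ZMod.val_natCast]
      exact (Nat.dvd_mod_iff (pow_dvd_pow p hi)).2 (Dvd.intro _ rfl)
  rw [h1, card_image_of_injOn, card_range]
  intro a ha b hb hab
  have ha' : p ^ i * a < p ^ k := by
    rw [← hk]; exact Nat.mul_lt_mul_of_pos_left (mem_range.1 ha) hpos
  have hb' : p ^ i * b < p ^ k := by
    rw [← hk]; exact Nat.mul_lt_mul_of_pos_left (mem_range.1 hb) hpos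
  have h2 := congrArg ZMod.val hab
  simp only at h2
  rw [ZMod.val_natCast, ZMod.val_natCast, Nat.mod_eq_of_lt ha', Nat.mod_eq_of_lt hb'] at h2
  exact Nat.eq_of_mul_eq_mul_left hpos h2

theorem card_Ann_le {j : ℕ} (hj : j ≤ k) : (Ann p k j).card ≤ p ^ j := by
  have h1 : Ann p k j ⊆ M p k (k - j) := by
    intro x hx
    rw [mem_Ann] at hx
    rw [mem_M_iff (Nat.sub_le _ _)]
    have h2 : ((p ^ j * x.val : ℕ) : ZMod (p ^ k)) = 0 := by
      push_cast
      rw [ZMod.natCast_zmod_val, hx]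
    rw [ZMod.natCast_eq_zero_iff] at h2
    have hk : p ^ j * p ^ (k - j) = p ^ k := by rw [← pow_add, Nat.add_sub_cancel' hj]
    exact Nat.dvd_of_mul_dvd_mul_left (pow_pos hp.out.pos j) (hk.dvd.trans h2)
  refine (card_le_card h1).trans (le_of_eq ?_)
  rw [card_M (Nat.sub_le _ _), Nat.sub_sub_self hj]

/-- One of the coordinates is a unit. -/
def Uni {R : Type*} [CommRing R] (w : R × R) : Prop := IsUnit w.1 ∨ IsUnit w.2

open scoped Classical in
variable (p k) in
/-- The vectors `p ^ j w'` where a coordinate of `w'` is a unit. -/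
noncomputable def A (j : ℕ) : Finset (ZMod (p ^ k) × ZMod (p ^ k)) :=
  univ.filter fun w => ∃ w', Uni w' ∧ w = (p : ZMod (p ^ k)) ^ j • w'

theorem mem_A {j : ℕ} {w : ZMod (p ^ k) × ZMod (p ^ k)} :
    w ∈ A p k j ↔ ∃ w', Uni w' ∧ w = (p : ZMod (p ^ k)) ^ j • w' := by
  simp [A]

variable (p k) in
/-- The vectors that are divisible by `p ^ j`. -/
noncomputable def S (j : ℕ) : Finset (ZMod (p ^ k) × ZMod (p ^ k)) := M p k j ×ˢ M p k j

theorem A_subset_S (j : ℕ) : A p k j ⊆ S p k j := by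
  intro w hw
  obtain ⟨w', -, rfl⟩ := mem_A.1 hw
  rw [S, mem_product]
  exact ⟨mem_M.2 ⟨w'.1, rfl⟩, mem_M.2 ⟨w'.2, rfl⟩⟩

theorem S_anti {i j : ℕ} (h : i ≤ j) : S p k j ⊆ S p k i := by
  intro w hw
  rw [S, mem_product, mem_M, mem_M] at hw
  obtain ⟨⟨a, ha⟩, ⟨b, hb⟩⟩ := hw
  rw [S, mem_product, mem_M, mem_M]
  obtain ⟨c, rfl⟩ := Nat.exists_eq_add_of_le h
  exact ⟨⟨_, by rw [ha, pow_add, mul_assoc]⟩, ⟨_, by rw [hb, pow_add, mul_assoc]⟩⟩

theorem exists_mul_of_not_isUnit {x : ZMod (p ^ k)} (hx : ¬ IsUnit x) :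
    ∃ y, x = (p : ZMod (p ^ k)) * y := by
  have h1 : ¬ Nat.Coprime x.val (p ^ k) := by
    intro h
    apply hx
    rw [← ZMod.natCast_zmod_val x]
    exact (ZMod.isUnit_iff_coprime _ _).2 h
  have h2 : p ∣ x.val := by
    by_contra h
    apply h1
    exact Nat.Coprime.pow_right k (((Nat.Prime.coprime_iff_not_dvd hp.out).2 h).symm)
  obtain ⟨c, hc⟩ := h2
  refine ⟨c, ?_⟩
  rw [← ZMod.natCast_zmod_val x, hc]
  push_cast
  rfl

theorem exists_mem_A {j : ℕ} (hj : j ≤ k) {w : ZMod (p ^ k) × ZMod (p ^ k)} (hw : w ∈ S p k j) :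
    ∃ i, j ≤ i ∧ i ≤ k ∧ w ∈ A p k i := by
  induction hn : k - j generalizing j with
  | zero =>
    have hjk : j = k := by omega
    subst hjk
    refine ⟨j, le_rfl, le_rfl, mem_A.2 ⟨(1, 0), Or.inl isUnit_one, ?_⟩⟩
    rw [S, mem_product, mem_M, mem_M] at hw
    obtain ⟨⟨a, ha⟩, ⟨b, hb⟩⟩ := hw
    have h0 : (p : ZMod (p ^ j)) ^ j = 0 := by
      rw [← Nat.cast_pow]; exact ZMod.natCast_self _
    apply Prod.ext
    · rw [ha, h0]; simp
    · rw [hb, h0]; simp
  | succ n ih =>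
    rw [S, mem_product, mem_M, mem_M] at hw
    obtain ⟨⟨a, ha⟩, ⟨b, hb⟩⟩ := hw
    by_cases hab : Uni (a, b)
    · refine ⟨j, le_rfl, hj, mem_A.2 ⟨(a, b), hab, ?_⟩⟩
      apply Prod.ext
      · exact ha
      · exact hb
    · rw [Uni, not_or] at hab
      obtain ⟨a', ha'⟩ := exists_mul_of_not_isUnit hab.1
      obtain ⟨b', hb'⟩ := exists_mul_of_not_isUnit hab.2
      simp only at ha' hb'
      have hw' : w ∈ S p k (j + 1) := by
        rw [S, mem_product, mem_M, mem_M]
        exact ⟨⟨a', by rw [ha, ha', pow_succ, mul_assoc]⟩, ⟨b', by rw [hb, hb', pow_succ, mul_assoc]⟩⟩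
      obtain ⟨i, h1, h2, h3⟩ := ih (by omega) hw' (by omega)
      exact ⟨i, by omega, h2, h3⟩

open scoped Classical in
/-- The vectors in `S i` that are parallel to a given vector in `A j`. -/
theorem card_parallel_le {i j : ℕ} (hi : i ≤ k) (hj : j ≤ k) {w : ZMod (p ^ k) × ZMod (p ^ k)}
    (hw : w ∈ A p k j) :
    ((S p k i).filter fun u => D w u = 0).card ≤ p ^ (k - i) * p ^ (min (k - i) j) := by
  obtain ⟨w', hw', rfl⟩ := mem_A.1 hw
  have hcard : (M p k i ×ˢ (M p k i ∩ Ann p k j)).card ≤ p ^ (k - i) * p ^ (min (k - i) j) := by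
    rw [card_product, card_M hi]
    refine Nat.mul_le_mul_left _ ?_
    rcases le_total (k - i) j with h | h
    · rw [min_eq_left h, ← card_M hi]
      exact card_le_card inter_subset_left
    · rw [min_eq_right h]
      exact (card_le_card inter_subset_right).trans (card_Ann_le hj)
  have hD : ∀ u ∈ (S p k i).filter fun u => D ((p : ZMod (p ^ k)) ^ j • w') u = 0,
      D w' u ∈ M p k i ∩ Ann p k j := by
    intro u hu
    rw [mem_filter, S, mem_product, mem_M, mem_M] at hu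
    obtain ⟨⟨⟨a, ha⟩, ⟨b, hb⟩⟩, h0⟩ := hu
    rw [mem_inter, mem_M, mem_Ann]
    refine ⟨⟨w'.1 * b - w'.2 * a, ?_⟩, ?_⟩
    · rw [D, ha, hb]; ring
    · rw [← h0, D, D]
      simp only [Prod.smul_fst, Prod.smul_snd, smul_eq_mul]
      ring
  refine le_trans ?_ hcard
  rcases hw' with hu | hu
  · refine card_le_card_of_injOn (fun u => (u.1, D w' u)) ?_ ?_
    · intro u hu'
      have h1 := hD u hu'
      rw [mem_coe, mem_filter, S, mem_product] at hu'
      rw [mem_coe, mem_product]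
      exact ⟨hu'.1.1, h1⟩
    · intro u _ v _ huv
      simp only [Prod.mk.injEq, D] at huv
      obtain ⟨h1, h2⟩ := huv
      rw [h1, sub_left_inj] at h2
      exact Prod.ext h1 (hu.mul_left_cancel h2)
  · refine card_le_card_of_injOn (fun u => (u.2, D w' u)) ?_ ?_
    · intro u hu'
      have h1 := hD u hu'
      rw [mem_coe, mem_filter, S, mem_product] at hu'
      rw [mem_coe, mem_product]
      exact ⟨hu'.1.2, h1⟩
    · intro u _ v _ huv
      simp only [Prod.mk.injEq, D] at huv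
      obtain ⟨h1, h2⟩ := huv
      rw [h1, sub_right_inj] at h2
      exact Prod.ext (hu.mul_left_cancel h2) h1

open scoped Classical in
variable (p k) in
/-- The vectors that are parallel to `w`. -/
noncomputable def par (w : ZMod (p ^ k) × ZMod (p ^ k)) : Finset (ZMod (p ^ k) × ZMod (p ^ k)) :=
  univ.filter fun u => D w u = 0

theorem card_par_le {j : ℕ} (hj : j ≤ k) {w : ZMod (p ^ k) × ZMod (p ^ k)} (hw : w ∈ A p k j) :
    (par p k w).card ≤ p ^ (k + j) := by
  classical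
  have h1 := card_parallel_le (Nat.zero_le k) hj hw
  rw [Nat.sub_zero, min_eq_right hj, ← pow_add] at h1
  refine le_trans (card_le_card ?_) h1
  intro u hu
  rw [par, mem_filter] at hu
  rw [mem_filter, S, mem_product, mem_M, mem_M]
  exact ⟨⟨⟨u.1, by simp⟩, ⟨u.2, by simp⟩⟩, hu.2⟩

end local_counting

end Pool.Agent.R710.Cc
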