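import Mathlib
import Pool.Agent.R710.Cc.Base

/-!
# Upper bounds from forests
-/

set_option autoImplicit false

namespace Pool.Agent.R710.Cc

open Finset

variable {p k : ℕ} [hp : Fact p.Prime] {V : Type*}

/-- A list of vertices with their parents: the vertices are distinct and the parents occur in
the rest of the list. -/
def Good : List (V × Option V) → Prop
  | [] => True
  | x :: L => x.1 ∉ L.map Prod.fst ∧ (∀ u ∈ x.2, u ∈ L.map Prod.fst) ∧ Good L

instance decGood [DecidableEq V] : (L : List (V × Option V)) → Decidable (Good L)
  | [] => isTrue trivial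
  | x :: L => by
    unfold Good
    have := decGood L
    infer_instance

/-- The exponent of the bound. -/
def ex (k : ℕ) (j : V → ℕ) : List (V × Option V) → ℕ
  | [] => 0
  | (v, none) :: L => 2 * (k - j v) + ex k j L
  | (v, some u) :: L => (k - j v) + j u + ex k j L

theorem Good.parent_mem : ∀ {L : List (V × Option V)}, Good L → ∀ x ∈ L, ∀ u ∈ x.2,
    u ∈ L.map Prod.fst
  | [], _, x, hx, _, _ => by simp at hx
  | y :: L, h, x, hx, u, hu => by
    rw [List.map_cons, List.mem_cons]
    rcases List.mem_cons.1 hx with rfl | hx
    · exact Or.inr (h.2.1 u hu)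
    · exact Or.inr (Good.parent_mem h.2.2 x hx u hu)

variable [Fintype V] [DecidableEq V]

open scoped Classical in
variable (p k) in
/-- The families of vectors with the given valuations on the vertices of the forest that are
parallel on its edges. -/
noncomputable def XL (j : V → ℕ) (L : List (V × Option V)) :
    Finset (V → ZMod (p ^ k) × ZMod (p ^ k)) :=
  univ.filter fun w => (∀ x ∈ L, w x.1 ∈ A p k (j x.1)) ∧
    (∀ x ∈ L, ∀ u ∈ x.2, D (w u) (w x.1) = 0) ∧ ∀ v, v ∉ L.map Prod.fst → w v = 0

theorem mem_XL {j : V → ℕ} {L : List (V × Option V)} {w : V → ZMod (p ^ k) × ZMod (p ^ k)} :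
    w ∈ XL p k j L ↔ (∀ x ∈ L, w x.1 ∈ A p k (j x.1)) ∧
    (∀ x ∈ L, ∀ u ∈ x.2, D (w u) (w x.1) = 0) ∧ ∀ v, v ∉ L.map Prod.fst → w v = 0 := by
  simp [XL]

theorem card_XL_le {j : V → ℕ} (hj : ∀ v, j v ≤ k) : ∀ {L : List (V × Option V)}, Good L →
    (XL p k j L).card ≤ p ^ ex k j L
  | [], _ => by
    have : XL p k j ([] : List (V × Option V)) ⊆ {0} := by
      intro w hw
      rw [mem_XL] at hw
      rw [mem_singleton]
      funext v
      exact hw.2.2 v (by simp)
    refine (card_le_card this).trans ?_
    simp [ex]
  | (v, o) :: L, h => by
    classical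
    have ih := card_XL_le hj h.2.2
    obtain ⟨h1, h2, h3⟩ := h
    have hmaps : ∀ w ∈ XL p k j ((v, o) :: L), Function.update w v 0 ∈ XL p k j L := by
      intro w hw
      rw [mem_XL] at hw ⊢
      obtain ⟨a1, a2, a3⟩ := hw
      refine ⟨fun x hx => ?_, fun x hx u hu => ?_, fun u hu => ?_⟩
      · have hne : x.1 ≠ v := by
          intro he
          have := List.mem_map_of_mem (f := Prod.fst) hx
          rw [he] at this
          exact h1 this
        rw [Function.update_of_ne hne]
        exact a1 x (List.mem_cons_of_mem _ hx)
      · have hne : x.1 ≠ v := by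
          intro he
          have := List.mem_map_of_mem (f := Prod.fst) hx
          rw [he] at this
          exact h1 this
        have hne' : u ≠ v := by
          rintro rfl
          exact h1 (h3.parent_mem x hx u hu)
        rw [Function.update_of_ne hne, Function.update_of_ne hne']
        exact a2 x (List.mem_cons_of_mem _ hx) u hu
      · by_cases huv : u = v
        · subst huv
          rw [Function.update_self]
        · rw [Function.update_of_ne huv]
          refine a3 u ?_
          rw [List.map_cons, List.mem_cons, not_or]
          exact ⟨huv, hu⟩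
    -- the fibres
    have hfib : ∀ w' ∈ XL p k j L, ((XL p k j ((v, o) :: L)).filter
        fun w => Function.update w v 0 = w').card ≤
          p ^ (match o with | none => 2 * (k - j v) | some u => (k - j v) + j u) := by
      intro w' hw'
      rw [mem_XL] at hw'
      have hinj : ∀ w1 ∈ (XL p k j ((v, o) :: L)).filter fun w => Function.update w v 0 = w',
          ∀ w2 ∈ (XL p k j ((v, o) :: L)).filter fun w => Function.update w v 0 = w',
          w1 v = w2 v → w1 = w2 := by
        intro w1 hw1 w2 hw2 h12
        rw [mem_filter] at hw1 hw2
        funext u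
        by_cases huv : u = v
        · rw [huv, h12]
        · have b1 := congrFun hw1.2 u
          have b2 := congrFun hw2.2 u
          rw [Function.update_of_ne huv] at b1 b2
          rw [b1, b2]
      cases o with
      | none =>
        have : ((XL p k j ((v, none) :: L)).filter fun w => Function.update w v 0 = w').card ≤
            (S p k (j v)).card := by
          refine card_le_card_of_injOn (fun w => w v) ?_ fun w1 hw1 w2 hw2 h12 =>
            hinj w1 hw1 w2 hw2 h12
          intro w hw
          rw [mem_coe, mem_filter, mem_XL] at hw
          exact A_subset_S _ (hw.1.1 (v, none) (List.mem_cons_self))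
        refine this.trans (le_of_eq ?_)
        rw [S, card_product, card_M (hj v)]
        ring
      | some u =>
        have huL := h2 u rfl
        obtain ⟨x, hx, hxu⟩ := List.mem_map.1 huL
        have hu : w' u ∈ A p k (j u) := by
          have := hw'.1 x hx
          rwa [hxu] at this
        have huv : u ≠ v := by
          rintro rfl
          exact h1 huL
        have : ((XL p k j ((v, some u) :: L)).filter fun w => Function.update w v 0 = w').card ≤
            ((S p k (j v)).filter fun y => D (w' u) y = 0).card := by
          refine card_le_card_of_injOn (fun w => w v) ?_ fun w1 hw1 w2 hw2 h12 =>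
            hinj w1 hw1 w2 hw2 h12
          intro w hw
          rw [mem_coe, mem_filter, mem_XL] at hw
          rw [mem_coe, mem_filter]
          refine ⟨A_subset_S _ (hw.1.1 (v, some u) (List.mem_cons_self)), ?_⟩
          have b1 := hw.1.2.1 (v, some u) (List.mem_cons_self) u rfl
          have b2 := congrFun hw.2 u
          rw [Function.update_of_ne huv] at b2
          rwa [b2] at b1
        refine this.trans ((card_parallel_le (hj v) (hj u) hu).trans ?_)
        rw [← pow_add]
        exact Nat.pow_le_pow_right hp.out.pos (Nat.add_le_add_left (min_le_right _ _) _)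
    refine (card_le_mul_card_image_of_maps_to hmaps _ hfib).trans ?_
    refine (Nat.mul_le_mul_left _ ih).trans (le_of_eq ?_)
    rw [← pow_add]
    cases o <;> rfl

end Pool.Agent.R710.Cc
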