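import Mathlib
import Pool.Agent.R710.Cc.Forest

/-!
# The graph with nine vertices and eleven edges
-/

set_option autoImplicit false

namespace Pool.Agent.R710.Cc

open Finset

/-- The graph on `0, …, 8` with the edges
`01, 02, 04, 12, 23, 35, 45, 26, 37, 58, 18`. -/
def Γ₁ : SimpleGraph (Fin 9) :=
  SimpleGraph.fromRel fun u v => (u, v) ∈ ([(0, 1), (0, 2), (0, 4), (1, 2), (2, 3), (3, 5), (4, 5),
    (2, 6), (3, 7), (5, 8), (1, 8)] : List (Fin 9 × Fin 9))

instance : DecidableRel Γ₁.Adj := fun u v => by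
  unfold Γ₁; infer_instance

theorem card_edge : Nat.card (Edge Γ₁) = Nat.card (Fin 9) + 2 := by
  rw [Nat.card_eq_fintype_card, Nat.card_eq_fintype_card]
  decide

/-- The vector at a vertex. -/
def vec {R : Type*} [CommRing R] (q : Par Γ₁ R) (v : Fin 9) : R × R := (q.1.1 v, q.1.2 v)

theorem D_vec {R : Type*} [CommRing R] (q : Par Γ₁ R) {u v : Fin 9} (h : Γ₁.Adj u v) :
    D (vec q u) (vec q v) = 0 := by
  rcases lt_or_gt_of_ne h.ne with huv | huv
  · have := q.2 ⟨(u, v), huv, h⟩
    rw [D]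
    simp only [vec] at *
    linear_combination this
  · have := q.2 ⟨(v, u), huv, h.symm⟩
    rw [D]
    simp only [vec] at *
    linear_combination -this

theorem vec_injective {R : Type*} [CommRing R] : Function.Injective (vec (R := R)) := by
  intro q q' h
  apply Subtype.ext
  apply Prod.ext
  · funext v
    exact congrArg Prod.fst (congrFun h v)
  · funext v
    exact congrArg Prod.snd (congrFun h v)

def L1 : List (Fin 9 × Option (Fin 9)) := [(6, some 2), (2, some 3), (7, some 3), (3, some 5),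
  (8, some 1), (1, some 0), (5, some 4), (4, some 0), (0, none)]

def L2 : List (Fin 9 × Option (Fin 9)) := [(6, some 2), (2, some 1), (7, some 3), (3, some 5),
  (8, some 1), (1, some 0), (5, some 4), (4, some 0), (0, none)]

def L3 : List (Fin 9 × Option (Fin 9)) := [(7, some 3), (3, none), (6, some 2), (2, some 0),
  (1, some 8), (8, some 5), (5, some 4), (4, some 0), (0, none)]

theorem good1 : Good L1 := by decide
theorem good2 : Good L2 := by decide
theorem good3 : Good L3 := by decide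

theorem ex_le (k : ℕ) (j : Fin 9 → ℕ) (hj : ∀ v, j v ≤ k) :
    ex k j L1 + ex k j L2 + ex k j L3 ≤ 31 * k := by
  simp only [ex, L1, L2, L3]
  have h0 := hj 0
  have h1 := hj 1
  have h2 := hj 2
  have h3 := hj 3
  have h4 := hj 4
  have h5 := hj 5
  have h6 := hj 6
  have h7 := hj 7
  have h8 := hj 8
  omega

section

variable {p k : ℕ} [hp : Fact p.Prime]

open scoped Classical in
variable (p k) in
/-- The parallel families with given valuations. -/
noncomputable def Y (j : Fin 9 → ℕ) : Finset (Fin 9 → ZMod (p ^ k) × ZMod (p ^ k)) :=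
  univ.filter fun w => (∀ v, w v ∈ A p k (j v)) ∧ ∀ u v, Γ₁.Adj u v → D (w u) (w v) = 0

theorem card_Y_le_of {j : Fin 9 → ℕ} (hj : ∀ v, j v ≤ k) {L : List (Fin 9 × Option (Fin 9))}
    (hL : Good L) (h1 : ∀ x ∈ L, ∀ u ∈ x.2, Γ₁.Adj u x.1) (h2 : ∀ v, v ∈ L.map Prod.fst) :
    (Y p k j).card ≤ p ^ ex k j L := by
  refine le_trans (card_le_card ?_) (card_XL_le hj hL)
  intro w hw
  rw [Y, mem_filter] at hw
  rw [mem_XL]
  exact ⟨fun x _ => hw.2.1 _, fun x hx u hu => hw.2.2 _ _ (h1 x hx u hu),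
    fun v hv => absurd (h2 v) hv⟩

theorem card_Y_le {j : Fin 9 → ℕ} (hj : ∀ v, j v ≤ k) : (Y p k j).card ^ 3 ≤ p ^ (31 * k) := by
  have a1 := card_Y_le_of (p := p) hj good1 (by decide) (by decide)
  have a2 := card_Y_le_of (p := p) hj good2 (by decide) (by decide)
  have a3 := card_Y_le_of (p := p) hj good3 (by decide) (by decide)
  calc (Y p k j).card ^ 3 = (Y p k j).card * (Y p k j).card * (Y p k j).card := by ring
    _ ≤ p ^ ex k j L1 * p ^ ex k j L2 * p ^ ex k j L3 :=
        Nat.mul_le_mul (Nat.mul_le_mul a1 a2) a3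
    _ = p ^ (ex k j L1 + ex k j L2 + ex k j L3) := by rw [pow_add, pow_add]
    _ ≤ p ^ (31 * k) := Nat.pow_le_pow_right hp.out.pos (ex_le k j hj)

theorem card_Par_le : Nat.card (Par Γ₁ (ZMod (p ^ k))) ≤
    ∑ j : Fin 9 → Fin (k + 1), (Y p k fun v => (j v : ℕ)).card := by
  classical
  let _ : Fintype (Par Γ₁ (ZMod (p ^ k))) := Fintype.ofFinite _
  rw [Nat.card_eq_fintype_card, ← card_univ]
  refine le_trans ?_ card_biUnion_le
  refine card_le_card_of_injOn vec ?_ vec_injective.injOn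
  intro q _
  have h1 : ∀ v, ∃ i : Fin (k + 1), vec q v ∈ A p k i := by
    intro v
    have h0 : vec q v ∈ S p k 0 := by
      rw [S, mem_product, mem_M, mem_M]
      exact ⟨⟨_, by rw [pow_zero, one_mul]⟩, ⟨_, by rw [pow_zero, one_mul]⟩⟩
    obtain ⟨i, -, h2, h3⟩ := exists_mem_A (Nat.zero_le k) h0
    exact ⟨⟨i, Nat.lt_succ_of_le h2⟩, h3⟩
  choose j hj using h1
  rw [mem_coe, mem_biUnion]
  refine ⟨j, mem_univ _, ?_⟩
  rw [Y, mem_filter]
  exact ⟨mem_univ _, hj, fun u v huv => D_vec q huv⟩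

end

end Pool.Agent.R710.Cc
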