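import Mathlib
import Pool.Agent.R710.Cc.Graph

/-!
# The lower bound
-/

set_option autoImplicit false

namespace Pool.Agent.R710.Cc

open Finset

variable {p k : ℕ} [hp : Fact p.Prime]

theorem card_S {i : ℕ} (hi : i ≤ k) : (S p k i).card = p ^ (2 * (k - i)) := by
  rw [S, card_product, card_M hi]
  ring

theorem sub_mem_S {i : ℕ} {u v : ZMod (p ^ k) × ZMod (p ^ k)} (hu : u ∈ S p k i)
    (hv : v ∈ S p k i) : u - v ∈ S p k i := by
  rw [S, mem_product, mem_M, mem_M] at *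
  obtain ⟨⟨a, ha⟩, ⟨b, hb⟩⟩ := hu
  obtain ⟨⟨c, hc⟩, ⟨d, hd⟩⟩ := hv
  exact ⟨⟨a - c, by rw [Prod.fst_sub, ha, hc]; ring⟩, ⟨b - d, by rw [Prod.snd_sub, hb, hd]; ring⟩⟩

open scoped Classical in
theorem card_ker_ge {l m : ℕ} (hl : l ≤ k) (hm : m ≤ k) {w : ZMod (p ^ k) × ZMod (p ^ k)}
    (h : ∀ u ∈ S p k l, D w u ∈ M p k m) :
    p ^ (2 * (k - l)) ≤ ((S p k l).filter fun u => D w u = 0).card * p ^ (k - m) := by
  rw [← card_S hl, ← card_M hm]
  refine card_le_mul_card_image_of_maps_to (f := fun u => D w u) h _ fun b _ => ?_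
  rcases ((S p k l).filter fun u => D w u = b).eq_empty_or_nonempty with he | ⟨u0, hu0⟩
  · rw [he, card_empty]; exact Nat.zero_le _
  · rw [mem_filter] at hu0
    refine card_le_card_of_injOn (fun u => u - u0) ?_ fun u _ v _ huv => sub_left_injective huv
    intro u hu
    rw [mem_coe, mem_filter] at hu ⊢
    refine ⟨sub_mem_S hu.1 hu0.1, ?_⟩
    have : D w (u - u0) = D w u - D w u0 := by
      simp only [D, Prod.fst_sub, Prod.snd_sub]; ring
    rw [this, hu.2, hu0.2, sub_self]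

theorem D_mem_M {i l : ℕ} {w u : ZMod (p ^ k) × ZMod (p ^ k)} (hw : w ∈ S p k i)
    (hu : u ∈ S p k l) : D w u ∈ M p k (i + l) := by
  rw [S, mem_product, mem_M, mem_M] at *
  obtain ⟨⟨a, ha⟩, ⟨b, hb⟩⟩ := hw
  obtain ⟨⟨c, hc⟩, ⟨d, hd⟩⟩ := hu
  exact ⟨a * d - b * c, by rw [D, ha, hb, hc, hd, pow_add]; ring⟩

theorem card_par_ge {i : ℕ} (hi : i ≤ k) {w : ZMod (p ^ k) × ZMod (p ^ k)} (hw : w ∈ S p k i) :
    p ^ (k + i) ≤ (par p k w).card := by
  classical
  have h1 := card_ker_ge (p := p) (w := w) (Nat.zero_le k) hi fun u hu => by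
    have := D_mem_M hw hu
    rwa [add_zero] at this
  have h2 : ((S p k 0).filter fun u => D w u = 0).card ≤ (par p k w).card := by
    refine card_le_card fun u hu => ?_
    rw [mem_filter] at hu
    rw [par, mem_filter]
    exact ⟨mem_univ _, hu.2⟩
  have h3 : p ^ (k + i) * p ^ (k - i) ≤ (par p k w).card * p ^ (k - i) := by
    calc p ^ (k + i) * p ^ (k - i) = p ^ (2 * (k - 0)) := by
          rw [← pow_add]; congr 1; omega
      _ ≤ _ := h1.trans (Nat.mul_le_mul_right _ h2)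
  exact Nat.le_of_mul_le_mul_right h3 (pow_pos hp.out.pos _)

theorem mem_A_of_notMem {i : ℕ} (hi : i ≤ k) {w : ZMod (p ^ k) × ZMod (p ^ k)} (h1 : w ∈ S p k i)
    (h2 : w ∉ S p k (i + 1)) : w ∈ A p k i := by
  obtain ⟨l, h3, h4, h5⟩ := exists_mem_A hi h1
  rcases h3.eq_or_lt with rfl | h
  · exact h5
  · exact absurd (S_anti h (A_subset_S l h5)) h2

variable {j : ℕ}

theorem two_mul_card_A_ge (hj : 0 < j) : p ^ (4 * j) ≤ 2 * (A p (3 * j) j).card := by
  classical
  have h1 : (S p (3 * j) j \ S p (3 * j) (j + 1)).card ≤ (A p (3 * j) j).card := by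
    refine card_le_card fun w hw => ?_
    rw [mem_sdiff] at hw
    exact mem_A_of_notMem (by omega) hw.1 hw.2
  have h2 := card_sdiff_add_card_eq_card (S_anti (p := p) (k := 3 * j) (Nat.le_add_right j 1))
  rw [card_S (by omega), card_S (by omega)] at h2
  have h3 : 2 * (3 * j - j) = 4 * j := by omega
  have h4 : 2 * (3 * j - (j + 1)) = 4 * j - 2 := by omega
  rw [h3, h4] at h2
  have h5 : 4 * j = (4 * j - 2) + 2 := by omega
  have h6 : 2 * p ^ (4 * j - 2) ≤ p ^ (4 * j) := by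
    rw [h5, pow_add, mul_comm]
    refine Nat.mul_le_mul_left _ ?_
    have := hp.out.two_le
    nlinarith
  omega

open scoped Classical in
theorem two_mul_card_pair_ge (hj : 0 < j) {w : ZMod (p ^ (3 * j)) × ZMod (p ^ (3 * j))}
    (hw : w ∈ A p (3 * j) j) :
    p ^ (3 * j) ≤ 2 * ((A p (3 * j) j).filter fun u => D w u = 0).card := by
  have hwS := A_subset_S j hw
  have h1 := card_ker_ge (p := p) (k := 3 * j) (l := j) (m := 2 * j) (w := w) (by omega) (by omega)
    fun u hu => by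
      have := D_mem_M hwS hu
      rwa [← two_mul] at this
  have h2 := card_parallel_le (p := p) (k := 3 * j) (i := j + 1) (j := j) (by omega) (by omega) hw
  have h3 : ((S p (3 * j) j).filter fun u => D w u = 0).card ≤
      ((A p (3 * j) j).filter fun u => D w u = 0).card +
      ((S p (3 * j) (j + 1)).filter fun u => D w u = 0).card := by
    refine le_trans (card_le_card ?_) (card_union_le _ _)
    intro u hu
    rw [mem_filter] at hu
    rw [mem_union, mem_filter, mem_filter]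
    by_cases hu' : u ∈ S p (3 * j) (j + 1)
    · exact Or.inr ⟨hu', hu.2⟩
    · exact Or.inl ⟨mem_A_of_notMem (by omega) hu.1 hu', hu.2⟩
  have e1 : 2 * (3 * j - j) = 4 * j := by omega
  have e2 : 3 * j - 2 * j = j := by omega
  have e3 : 3 * j - (j + 1) = 2 * j - 1 := by omega
  have e4 : min (2 * j - 1) j = j := by omega
  have e5 : 2 * j - 1 + j = 3 * j - 1 := by omega
  rw [e1, e2] at h1
  rw [e3, e4, ← pow_add, e5] at h2
  have h4 : p ^ (3 * j) ≤ ((S p (3 * j) j).filter fun u => D w u = 0).card := by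
    have : p ^ (3 * j) * p ^ j ≤ ((S p (3 * j) j).filter fun u => D w u = 0).card * p ^ j := by
      rw [← pow_add, show 3 * j + j = 4 * j by ring]
      exact h1
    exact Nat.le_of_mul_le_mul_right this (pow_pos hp.out.pos _)
  have h5 : 2 * p ^ (3 * j - 1) ≤ p ^ (3 * j) := by
    have e6 : 3 * j = (3 * j - 1) + 1 := by omega
    conv_rhs => rw [e6, pow_succ, mul_comm]
    exact Nat.mul_le_mul_right _ hp.out.two_le
  omega

open scoped Classical in
variable (p j) in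
/-- The vectors at the vertex `5`. -/
noncomputable def C5 (a b : ZMod (p ^ (3 * j)) × ZMod (p ^ (3 * j))) :
    Finset (ZMod (p ^ (3 * j)) × ZMod (p ^ (3 * j))) :=
  (S p (3 * j) (2 * j)).filter fun w => D w a = 0 ∧ D w b = 0

theorem card_C5_ge {w0 w1 a b : ZMod (p ^ (3 * j)) × ZMod (p ^ (3 * j))}
    (h0 : w0 ∈ A p (3 * j) j) (h1 : w1 ∈ A p (3 * j) j) (h01 : D w0 w1 = 0) (ha : D w0 a = 0)
    (hb : D w1 b = 0) : p ^ j ≤ (C5 p j a b).card := by
  classical
  obtain ⟨x, hx, rfl⟩ := mem_A.1 h0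
  obtain ⟨y, hy, rfl⟩ := mem_A.1 h1
  have hM : (M p (3 * j) (2 * j)).card = p ^ j := by
    rw [card_M (by omega)]; congr 1; omega
  rw [← hM]
  simp only [D, Prod.smul_fst, Prod.smul_snd, smul_eq_mul] at h01 ha hb
  -- the key identity
  have hkey : (p : ZMod (p ^ (3 * j))) ^ (2 * j) * D x b = 0 := by
    have hp2 : (p : ZMod (p ^ (3 * j))) ^ (2 * j) =
        (p : ZMod (p ^ (3 * j))) ^ j * (p : ZMod (p ^ (3 * j))) ^ j := by
      rw [← pow_add, two_mul]
    rcases hy with hy | hy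
    · apply hy.mul_left_cancel
      rw [mul_zero, hp2, D]
      linear_combination b.1 * h01 + (p : ZMod (p ^ (3 * j))) ^ j * x.1 * hb
    · apply hy.mul_left_cancel
      rw [mul_zero, hp2, D]
      linear_combination b.2 * h01 + (p : ZMod (p ^ (3 * j))) ^ j * x.2 * hb
  refine card_le_card_of_injOn (fun t => (t * x.1, t * x.2)) ?_ ?_
  · intro t ht
    rw [mem_coe, mem_M] at ht
    obtain ⟨s, rfl⟩ := ht
    rw [mem_coe, C5, mem_filter, S, mem_product, mem_M, mem_M]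
    refine ⟨⟨⟨s * x.1, by ring⟩, ⟨s * x.2, by ring⟩⟩, ?_, ?_⟩
    · have hp2 : (p : ZMod (p ^ (3 * j))) ^ (2 * j) =
          (p : ZMod (p ^ (3 * j))) ^ j * (p : ZMod (p ^ (3 * j))) ^ j := by
        rw [← pow_add, two_mul]
      simp only [D]
      rw [hp2]
      linear_combination (p : ZMod (p ^ (3 * j))) ^ j * s * ha
    · simp only [D] at hkey ⊢
      linear_combination s * hkey
  · intro t _ t' _ h
    simp only [Prod.mk.injEq] at h
    rcases hx with hx | hx
    · exact hx.mul_right_cancel h.1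
    · exact hx.mul_right_cancel h.2

/-- A family of vectors as a point of `Par`. -/
def ofVec {R : Type*} [CommRing R] (w : Fin 9 → R × R)
    (h : ∀ u v, u < v → Γ₁.Adj u v → D (w u) (w v) = 0) : Par Γ₁ R :=
  ⟨(fun v => (w v).1, fun v => (w v).2), fun e => by
    have := h e.1.1 e.1.2 e.2.1 e.2.2
    rw [D] at this
    linear_combination this⟩

theorem adj_cases : ∀ u v : Fin 9, u < v → Γ₁.Adj u v →
    (u, v) ∈ ([(0, 1), (0, 2), (0, 4), (1, 2), (2, 3), (3, 5), (4, 5),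
    (2, 6), (3, 7), (5, 8), (1, 8)] : List (Fin 9 × Fin 9)) := by
  decide

theorem D_comm {R : Type*} [CommRing R] (w u : R × R) : D w u = - D u w := by
  rw [D, D]; ring

theorem D_eq_zero_of_mem {a b : ℕ} (hab : k ≤ a + b) {w u : ZMod (p ^ k) × ZMod (p ^ k)}
    (hw : w ∈ S p k a) (hu : u ∈ S p k b) : D w u = 0 := by
  have h := D_mem_M hw hu
  rw [mem_M] at h
  obtain ⟨y, hy⟩ := h
  have h0 : (p : ZMod (p ^ k)) ^ (a + b) = 0 := by
    obtain ⟨c, hc⟩ := Nat.exists_eq_add_of_le hab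
    have : (p : ZMod (p ^ k)) ^ k = 0 := by
      rw [← Nat.cast_pow]; exact ZMod.natCast_self _
    rw [hc, pow_add, this, zero_mul]
  rw [hy, h0, zero_mul]

theorem le_card_Par (hj : 0 < j) :
    p ^ (31 * j) ≤ 4 * Nat.card (Par Γ₁ (ZMod (p ^ (3 * j)))) := by
  classical
  let _ : Fintype (Par Γ₁ (ZMod (p ^ (3 * j)))) := Fintype.ofFinite _
  rw [Nat.card_eq_fintype_card, ← card_univ]
  let X := (A p (3 * j) j ×ˢ A p (3 * j) j).filter fun x => D x.1 x.2 = 0
  let T1 := X.sigma fun x => (par p (3 * j) x.1 ×ˢ par p (3 * j) x.2).sigma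
    fun y => C5 p j y.1 y.2
  let T2 := (S p (3 * j) (2 * j)).sigma fun w => par p (3 * j) w
  let T3 := (S p (3 * j) j).sigma fun w => par p (3 * j) w
  have hX : p ^ (7 * j) ≤ 4 * X.card := by
    have h1 : X.card = ∑ w ∈ A p (3 * j) j, ((A p (3 * j) j).filter fun u => D w u = 0).card := by
      rw [← card_sigma]
      refine card_bij (fun x _ => ⟨x.1, x.2⟩) ?_ ?_ ?_
      · intro x hx
        rw [mem_filter, mem_product] at hx
        rw [mem_sigma, mem_filter]
        exact ⟨hx.1.1, hx.1.2, hx.2⟩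
      · intro x _ y _ hxy
        simp only [Sigma.mk.injEq, heq_eq_eq] at hxy
        exact Prod.ext hxy.1 hxy.2
      · rintro ⟨a, b⟩ hab
        rw [mem_sigma, mem_filter] at hab
        refine ⟨(a, b), ?_, rfl⟩
        rw [mem_filter, mem_product]
        exact ⟨⟨hab.1, hab.2.1⟩, hab.2.2⟩
    rw [h1]
    have h2 : (A p (3 * j) j).card * p ^ (3 * j) ≤
        2 * ∑ w ∈ A p (3 * j) j, ((A p (3 * j) j).filter fun u => D w u = 0).card := by
      rw [mul_sum, ← smul_eq_mul, ← sum_const]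
      exact sum_le_sum fun w hw => two_mul_card_pair_ge hj hw
    have h3 := two_mul_card_A_ge (p := p) hj
    calc p ^ (7 * j) = p ^ (4 * j) * p ^ (3 * j) := by rw [← pow_add]; congr 1; ring
      _ ≤ (2 * (A p (3 * j) j).card) * p ^ (3 * j) := Nat.mul_le_mul_right _ h3
      _ = 2 * ((A p (3 * j) j).card * p ^ (3 * j)) := by ring
      _ ≤ 2 * (2 * ∑ w ∈ A p (3 * j) j, ((A p (3 * j) j).filter fun u => D w u = 0).card) :=
          Nat.mul_le_mul_left _ h2
      _ = _ := by ring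
  have hT1 : p ^ (16 * j) ≤ 4 * T1.card := by
    have h1 : X.card * p ^ (9 * j) ≤ T1.card := by
      rw [card_sigma, ← smul_eq_mul, ← sum_const]
      refine sum_le_sum fun x hx => ?_
      rw [mem_filter, mem_product] at hx
      rw [card_sigma]
      have h2 := card_par_ge (p := p) (k := 3 * j) (by omega) (A_subset_S j hx.1.1)
      have h3 := card_par_ge (p := p) (k := 3 * j) (by omega) (A_subset_S j hx.1.2)
      calc p ^ (9 * j) = (p ^ (3 * j + j) * p ^ (3 * j + j)) * p ^ j := by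
            rw [← pow_add, ← pow_add]; congr 1; ring
        _ ≤ (par p (3 * j) x.1 ×ˢ par p (3 * j) x.2).card * p ^ j := by
            rw [card_product]
            exact Nat.mul_le_mul_right _ (Nat.mul_le_mul h2 h3)
        _ = ∑ y ∈ par p (3 * j) x.1 ×ˢ par p (3 * j) x.2, p ^ j := by
            rw [sum_const, smul_eq_mul]
        _ ≤ _ := by
            refine sum_le_sum fun y hy => ?_
            rw [mem_product, par, mem_filter, par, mem_filter] at hy
            exact card_C5_ge hx.1.1 hx.1.2 hx.2 hy.1.2 hy.2.2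
    calc p ^ (16 * j) = p ^ (7 * j) * p ^ (9 * j) := by rw [← pow_add]; congr 1; ring
      _ ≤ (4 * X.card) * p ^ (9 * j) := Nat.mul_le_mul_right _ hX
      _ = 4 * (X.card * p ^ (9 * j)) := by ring
      _ ≤ _ := Nat.mul_le_mul_left _ h1
  have hT2 : p ^ (7 * j) ≤ T2.card := by
    calc p ^ (7 * j) = (S p (3 * j) (2 * j)).card * p ^ (3 * j + 2 * j) := by
          rw [card_S (by omega), ← pow_add]; congr 1; omega
      _ ≤ _ := by
          rw [card_sigma, ← smul_eq_mul, ← sum_const]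
          exact sum_le_sum fun w hw => card_par_ge (by omega) hw
  have hT3 : p ^ (8 * j) ≤ T3.card := by
    calc p ^ (8 * j) = (S p (3 * j) j).card * p ^ (3 * j + j) := by
          rw [card_S (by omega), ← pow_add]; congr 1; omega
      _ ≤ _ := by
          rw [card_sigma, ← smul_eq_mul, ← sum_const]
          exact sum_le_sum fun w hw => card_par_ge (by omega) hw
  have hT : p ^ (31 * j) ≤ 4 * ((T1 ×ˢ T2) ×ˢ T3).card := by
    rw [card_product, card_product]
    calc p ^ (31 * j) = p ^ (16 * j) * (p ^ (7 * j) * p ^ (8 * j)) := by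
          rw [← pow_add, ← pow_add]; congr 1; ring
      _ ≤ (4 * T1.card) * (T2.card * T3.card) :=
          Nat.mul_le_mul hT1 (Nat.mul_le_mul hT2 hT3)
      _ = _ := by ring
  refine hT.trans (Nat.mul_le_mul_left _ ?_)
  -- the family of vectors
  let fam : (((Σ _ : (ZMod (p ^ (3 * j)) × ZMod (p ^ (3 * j))) ×
      (ZMod (p ^ (3 * j)) × ZMod (p ^ (3 * j))), Σ _ : (ZMod (p ^ (3 * j)) × ZMod (p ^ (3 * j))) ×
      (ZMod (p ^ (3 * j)) × ZMod (p ^ (3 * j))), ZMod (p ^ (3 * j)) × ZMod (p ^ (3 * j))) ×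
      (Σ _ : ZMod (p ^ (3 * j)) × ZMod (p ^ (3 * j)), ZMod (p ^ (3 * j)) × ZMod (p ^ (3 * j)))) ×
      (Σ _ : ZMod (p ^ (3 * j)) × ZMod (p ^ (3 * j)), ZMod (p ^ (3 * j)) × ZMod (p ^ (3 * j)))) →
      Fin 9 → ZMod (p ^ (3 * j)) × ZMod (p ^ (3 * j)) := fun t =>
    ![t.1.1.1.1, t.1.1.1.2, t.1.2.1, t.2.1, t.1.1.2.1.1, t.1.1.2.2, t.1.2.2, t.2.2, t.1.1.2.1.2]
  have hfam : ∀ t ∈ (T1 ×ˢ T2) ×ˢ T3, ∀ u v, u < v → Γ₁.Adj u v → D (fam t u) (fam t v) = 0 := by
    intro t ht u v h1 h2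
    rw [mem_product, mem_product, mem_sigma, mem_sigma, mem_filter, mem_product, mem_product,
      mem_sigma, mem_sigma, C5, mem_filter, par, mem_filter, par, mem_filter, par, mem_filter,
      par, mem_filter] at ht
    obtain ⟨⟨⟨⟨⟨hw0, hw1⟩, h01⟩, ⟨⟨-, h04⟩, ⟨-, h18⟩⟩, hw5, h54, h58⟩, hw2, -, h26⟩, hw3, -, h37⟩ :=
      ht
    have s0 := A_subset_S _ hw0
    have s1 := A_subset_S _ hw1
    have h3 := adj_cases u v h1 h2
    simp only [List.mem_cons, Prod.mk.injEq, List.not_mem_nil, or_false] at h3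
    rcases h3 with ⟨rfl, rfl⟩ | ⟨rfl, rfl⟩ | ⟨rfl, rfl⟩ | ⟨rfl, rfl⟩ | ⟨rfl, rfl⟩ | ⟨rfl, rfl⟩ |
      ⟨rfl, rfl⟩ | ⟨rfl, rfl⟩ | ⟨rfl, rfl⟩ | ⟨rfl, rfl⟩ | ⟨rfl, rfl⟩
    · exact h01
    · exact D_eq_zero_of_mem (a := j) (b := 2 * j) (by omega) s0 hw2
    · exact h04
    · exact D_eq_zero_of_mem (a := j) (b := 2 * j) (by omega) s1 hw2
    · exact D_eq_zero_of_mem (a := 2 * j) (b := j) (by omega) hw2 hw3
    · exact D_eq_zero_of_mem (a := j) (b := 2 * j) (by omega) hw3 hw5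
    · rw [D_comm, neg_eq_zero]; exact h54
    · exact h26
    · exact h37
    · exact h58
    · exact h18
  rw [← card_attach]
  refine card_le_card_of_injOn (fun t => ofVec (fam t.1) (hfam t.1 t.2))
    (fun _ _ => mem_coe.2 (mem_univ _)) ?_
  rintro ⟨t, ht⟩ _ ⟨t', ht'⟩ _ h
  have h1 : ∀ v, fam t v = fam t' v := by
    intro v
    have a1 := congrFun (congrArg (fun q : Par Γ₁ (ZMod (p ^ (3 * j))) => q.1.1) h) v
    have a2 := congrFun (congrArg (fun q : Par Γ₁ (ZMod (p ^ (3 * j))) => q.1.2) h) v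
    exact Prod.ext a1 a2
  have b0 := h1 0
  have b1 := h1 1
  have b2 := h1 2
  have b3 := h1 3
  have b4 := h1 4
  have b5 := h1 5
  have b6 := h1 6
  have b7 := h1 7
  have b8 := h1 8
  obtain ⟨⟨⟨⟨x0, x1⟩, ⟨x4, x8⟩, x5⟩, ⟨x2, x6⟩⟩, ⟨x3, x7⟩⟩ := t
  obtain ⟨⟨⟨⟨y0, y1⟩, ⟨y4, y8⟩, y5⟩, ⟨y2, y6⟩⟩, ⟨y3, y7⟩⟩ := t'
  simp only [fam, Matrix.cons_val_zero, Matrix.cons_val_one, Matrix.cons_val] at b0 b1 b2 b3 b4 b5 b6 b7 b8
  subst b0 b1 b2 b3 b4 b5 b6 b7 b8
  rfl

end Pool.Agent.R710.Cc
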